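import Pool.Agent.L7h6.TX.Res

/-!
# Almost primes just above `x 2^n`, for all large `n` (MP_78b39f_nt)

For almost every `x > 0` and ALL large `n` the interval `[x 2^n, x 2^n + n^(1+ε)]`, and every other interval of this
length near `x 2^n`, contains an integer with at most `r(ε)` prime factors.

`AP r v`: `v ≥ 2` has at most `r` prime factors, counted with multiplicity, all of them at least `v^(1/r)`.
`Near r h D y`: for every real `u` with `|u - y| ≤ D` there is such a `v` in `[u, u + h]`.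
-/

set_option autoImplicit false

namespace Pool.Agent.Results.MP_78b39f_nt.AllLargeExponents

open Filter MeasureTheory
open Pool.Agent.L7h6.TX (AP Near main1 main2)

/-- **Almost primes in short intervals above `x B^n`, `x a^n` and `x a_n`, for all large `n`.** -/
theorem result : ∀ ε : ℝ, 0 < ε → ∀ C : ℕ,
    (∃ r : ℕ,
      (∀ B : ℝ, 1 < B → ∀ᵐ x : ℝ, 0 < x → ∀ᶠ n : ℕ in atTop,
        Near r ((n : ℝ) ^ (1 + ε)) ((n : ℝ) ^ C) (x * B ^ n)) ∧
      (∀ x : ℝ, 0 < x → ∀ᵐ a : ℝ, 1 < a → ∀ᶠ n : ℕ in atTop,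
        Near r ((n : ℝ) ^ (1 + ε)) ((n : ℝ) ^ C) (x * a ^ n))) ∧
    (∀ c : ℝ, 0 < c → ∃ r : ℕ, ∀ a : ℕ → ℝ, (∀ᶠ n : ℕ in atTop, Real.exp ((n : ℝ) ^ c) ≤ a n) →
      ∀ᵐ x : ℝ, 0 < x → ∀ᶠ n : ℕ in atTop,
        Near r ((Real.log (a n)) ^ (1 + ε)) ((Real.log (a n)) ^ C) (x * a n)) :=
  fun ε hε C => ⟨main1 ε hε C, fun c hc => main2 ε hε C c hc⟩

end Pool.Agent.Results.MP_78b39f_nt.AllLargeExponents
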