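import Pool.Agent.L7h6.PR.Win
import Pool.Agent.L7h6.PR.Pn

/-!
# Products of at most three primes just above the powers of almost every real number

The question is whether `[2 ^ n, 2 ^ n + p_n]` contains a prime, where `p_n` is the `n`-th prime. Here the powers of two are
replaced by the powers `α ^ n` of almost every real number `α > 1`, and primes by the integers with at most three prime
factors (counted with multiplicity), all of which are large. For almost every `α > 1` and every `K`, the set of the `n` such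
that `[α ^ n, α ^ n + p_n]` contains at least `K` such integers has logarithmic density ONE.

The same holds for `[ξ α ^ n, ξ α ^ n + h n]` for every `ξ > 0` and every `h` with `h n / n → ∞` (so for the intervals just
longer than the mean gap between the primes), and, with natural density one, for
`[ξ α ^ (q ^ n), ξ α ^ (q ^ n) + h n]`, `h n / q ^ n → ∞`, for every integer `q ≥ 2`.
-/

set_option autoImplicit false

namespace Pool.Agent.Results.MP_78b39f_nt.AlmostPrimesAboveAlmostAllPowers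

open MeasureTheory Set Finset Filter Topology
open Pool.Agent.L7h6.PL (LowerWin log_law_lower lac_law_lower)
open Pool.Agent.L7h6.PR (Good lowerWin nth_tendsto)

/-- the `n`-th prime, `p 1 = 2` -/
noncomputable def p (n : ℕ) : ℕ := Nat.nth Nat.Prime (n - 1)

/-- `v` has at most three prime factors, counted with multiplicity, all of them at least `v ^ (1 / 15)` -/
def AlmostPrime (v : ℕ) : Prop :=
  2 ≤ v ∧ v.primeFactorsList.length ≤ 3 ∧ ∀ q : ℕ, q.Prime → q ∣ v → (v : ℝ) ^ (1 / 15 : ℝ) ≤ q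

/-- the number of the almost primes in `[x, y]` -/
noncomputable def almostPrimes (x y : ℝ) : ℕ := Set.ncard {v : ℕ | AlmostPrime v ∧ x ≤ v ∧ (v : ℝ) ≤ y}

open Classical in
/-- `S` has logarithmic density one -/
def LogDensityOne (S : Set ℕ) : Prop :=
  Tendsto (fun N : ℕ => (∑ n ∈ (Finset.Icc 1 N).filter (fun n => n ∈ S), 1 / (n : ℝ)) / Real.log N) atTop (𝓝 1)

open Classical in
/-- `S` has natural density one -/
def DensityOne (S : Set ℕ) : Prop :=
  Tendsto (fun N : ℕ => (#{n ∈ range N | n ∈ S} : ℝ) / N) atTop (𝓝 1)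

lemma count_of_good {h x : ℝ} {K : ℕ} (hx : 0 ≤ x) (hg : Good h K ⌊x⌋₊) : K ≤ almostPrimes x (x + h) := by
  obtain ⟨S, h1, h2⟩ := hg
  have hfin : {v : ℕ | AlmostPrime v ∧ x ≤ v ∧ (v : ℝ) ≤ x + h}.Finite :=
    (Set.finite_Iic ⌊x + h⌋₊).subset fun q hq => Nat.le_floor hq.2.2
  have h3 : (S : Set ℕ) ⊆ {v : ℕ | AlmostPrime v ∧ x ≤ v ∧ (v : ℝ) ≤ x + h} := by
    intro v hv
    obtain ⟨g1, g2, g3, g4, g5⟩ := h2 v hv
    refine ⟨⟨g3, g4, g5⟩, ((Nat.floor_lt hx).1 g1).le, ?_⟩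
    have := Nat.floor_le hx
    linarith
  have h4 := Set.ncard_le_ncard h3 hfin
  rwa [Set.ncard_coe_finset, h1] at h4

open Classical in
lemma logDensityOne_of {S : Set ℕ} (h : ∀ δ : ℝ, 0 < δ → ∀ᶠ N : ℕ in atTop,
    (1 - δ) * Real.log N ≤ ∑ n ∈ (Finset.Icc 1 N).filter (fun n => n ∈ S), 1 / (n : ℝ)) : LogDensityOne S := by
  unfold LogDensityOne
  have hlimlog : Tendsto (fun N : ℕ => Real.log N) atTop atTop :=
    Real.tendsto_log_atTop.comp tendsto_natCast_atTop_atTop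
  rw [Metric.tendsto_atTop]
  intro δ hδ
  have h4 := ((h (δ / 2) (by positivity)).and (hlimlog.eventually_gt_atTop (max 1 (2 / δ)))).and (eventually_ge_atTop 1)
  obtain ⟨N₀, hN₀⟩ := eventually_atTop.1 h4
  refine ⟨N₀, fun N hN => ?_⟩
  obtain ⟨⟨h5, h6⟩, h7⟩ := hN₀ N hN
  have hl1 : 1 < Real.log N := (le_max_left _ _).trans_lt h6
  have hl2 : 2 / δ < Real.log N := (le_max_right _ _).trans_lt h6
  have hl0 : 0 < Real.log N := by linarith
  have hup : ∑ n ∈ (Finset.Icc 1 N).filter (fun n => n ∈ S), 1 / (n : ℝ) ≤ 1 + Real.log N := by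
    have h := harmonic_le_one_add_log N
    refine le_trans ?_ h
    rw [harmonic_eq_sum_Icc]
    push_cast
    simp only [one_div]
    exact Finset.sum_le_sum_of_subset_of_nonneg (Finset.filter_subset _ _) (fun n _ _ => by positivity)
  rw [Real.dist_eq, abs_lt]
  constructor
  · have h8 := (le_div_iff₀ hl0).2 h5
    linarith
  · have h8 : (∑ n ∈ (Finset.Icc 1 N).filter (fun n => n ∈ S), 1 / (n : ℝ)) / Real.log N < 1 + δ := by
      rw [div_lt_iff₀ hl0]
      refine hup.trans_lt ?_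
      rw [div_lt_iff₀ hδ] at hl2
      linarith
    linarith

open Classical in
lemma densityOne_of {S : Set ℕ} (h : ∀ δ : ℝ, 0 < δ → ∀ᶠ N : ℕ in atTop,
    (1 - δ) * N ≤ (#{n ∈ range N | n ∈ S} : ℝ)) : DensityOne S := by
  unfold DensityOne
  rw [Metric.tendsto_atTop]
  intro δ hδ
  obtain ⟨N₀, hN₀⟩ := eventually_atTop.1 ((h (δ / 2) (by positivity)).and (eventually_ge_atTop 1))
  refine ⟨N₀, fun N hN => ?_⟩
  obtain ⟨h5, h7⟩ := hN₀ N hN
  have hN0 : (0 : ℝ) < N := by exact_mod_cast h7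
  have hup : (#{n ∈ range N | n ∈ S} : ℝ) ≤ N := by
    have := Finset.card_filter_le (range N) (fun n => n ∈ S)
    rw [card_range] at this
    exact_mod_cast this
  rw [Real.dist_eq, abs_lt]
  constructor
  · have h8 := (le_div_iff₀ hN0).2 h5
    linarith
  · have h8 := (div_le_one hN0).2 hup
    linarith

/-- **Almost primes just above the powers of almost every real number.** -/
theorem result :
    (∀ᵐ α : ℝ, 1 < α → ∀ K : ℕ, LogDensityOne {n | K ≤ almostPrimes (α ^ n) (α ^ n + p n)}) ∧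
    (∀ ξ : ℝ, 0 < ξ → ∀ h : ℕ → ℝ, Tendsto (fun n : ℕ => h n / n) atTop atTop → ∀ᵐ α : ℝ, 1 < α → ∀ K : ℕ,
      LogDensityOne {n | K ≤ almostPrimes (ξ * α ^ n) (ξ * α ^ n + h n)}) ∧
    (∀ ξ : ℝ, 0 < ξ → ∀ q : ℕ, 2 ≤ q → ∀ h : ℕ → ℝ, Tendsto (fun n : ℕ => h n / (q : ℝ) ^ n) atTop atTop →
      ∀ᵐ α : ℝ, 1 < α → ∀ K : ℕ, DensityOne {n | K ≤ almostPrimes (ξ * α ^ q ^ n) (ξ * α ^ q ^ n + h n)}) := by
  classical
  have main1 : ∀ ξ : ℝ, 0 < ξ → ∀ h : ℕ → ℝ, Tendsto (fun n : ℕ => h n / n) atTop atTop → ∀ᵐ α : ℝ, 1 < α → ∀ K : ℕ,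
      LogDensityOne {n | K ≤ almostPrimes (ξ * α ^ n) (ξ * α ^ n + h n)} := by
    intro ξ hξ h hh
    have h1 : ∀ K j : ℕ, ∀ᵐ α : ℝ, 1 < α → ∀ ε : ℝ, 0 < ε → ∀ᶠ N : ℕ in atTop,
        ((1 - 1 / ((j : ℝ) + 1)) - ε) * Real.log N ≤
        ∑ n ∈ (Finset.Icc 1 N).filter (fun n => ⌊ξ * α ^ n⌋₊ ∈ {m : ℕ | Good (h n) K m}), 1 / (n : ℝ) := by
      intro K j
      have hj : (0 : ℝ) < 1 / ((j : ℝ) + 1) := by positivity
      have hj1 : 1 / ((j : ℝ) + 1) ≤ 1 := by
        rw [div_le_one (by positivity)]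
        linarith [Nat.cast_nonneg (α := ℝ) j]
      exact log_law_lower (Q := fun n => {m | Good (h n) K m}) hξ (by norm_num : (0 : ℝ) < 4 / 5) (by norm_num)
        (by linarith) (by linarith) (lowerWin K (fun n => (n : ℝ)) h tendsto_natCast_atTop_atTop hh _ hj)
    have h2 := ae_all_iff.2 fun K => ae_all_iff.2 fun j => h1 K j
    filter_upwards [h2] with α hα hα1 K
    obtain ⟨S, hS⟩ : ∃ S : Set ℕ, S = {n | K ≤ almostPrimes (ξ * α ^ n) (ξ * α ^ n + h n)} := ⟨_, rfl⟩
    rw [← hS]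
    refine logDensityOne_of fun δ hδ => ?_
    obtain ⟨j, hj⟩ := exists_nat_one_div_lt (show (0 : ℝ) < δ / 2 by positivity)
    filter_upwards [hα K j hα1 (δ / 2) (by positivity), eventually_ge_atTop 1] with N h5 h6
    have hl0 : 0 ≤ Real.log N := Real.log_nonneg (by exact_mod_cast h6)
    refine le_trans (mul_le_mul_of_nonneg_right (by linarith) hl0) (h5.trans ?_)
    refine Finset.sum_le_sum_of_subset_of_nonneg (fun n hn => ?_) (fun n _ _ => by positivity)
    rw [Finset.mem_filter] at hn ⊢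
    refine ⟨hn.1, ?_⟩
    rw [hS]
    exact count_of_good (by positivity) hn.2
  refine ⟨?_, main1, ?_⟩
  · have h1 := main1 1 one_pos (fun n => (p n : ℝ)) nth_tendsto
    filter_upwards [h1] with α hα hα1 K
    have h2 := hα hα1 K
    simp only [one_mul] at h2
    exact h2
  · intro ξ hξ q hq h hh
    have hq1 : (1 : ℝ) < q := by exact_mod_cast (show 1 < q by omega)
    have h1 : ∀ K j : ℕ, ∀ᵐ α : ℝ, 1 < α → ∀ ε : ℝ, 0 < ε → ∀ᶠ N : ℕ in atTop,
        ((1 - 1 / ((j : ℝ) + 1)) - ε) * N ≤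
        (#{n ∈ range N | ⌊ξ * α ^ q ^ n⌋₊ ∈ {m : ℕ | Good (h n) K m}} : ℝ) := by
      intro K j
      have hj : (0 : ℝ) < 1 / ((j : ℝ) + 1) := by positivity
      have hj1 : 1 / ((j : ℝ) + 1) ≤ 1 := by
        rw [div_le_one (by positivity)]
        linarith [Nat.cast_nonneg (α := ℝ) j]
      exact lac_law_lower (Q := fun n => {m | Good (h n) K m}) hq hξ (by norm_num : (0 : ℝ) < 4 / 5) (by norm_num)
        (by linarith) (by linarith) (lowerWin K (fun n => (q : ℝ) ^ n) h (tendsto_pow_atTop_atTop_of_one_lt hq1) hh _ hj)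
    have h2 := ae_all_iff.2 fun K => ae_all_iff.2 fun j => h1 K j
    filter_upwards [h2] with α hα hα1 K
    obtain ⟨S, hS⟩ : ∃ S : Set ℕ, S = {n | K ≤ almostPrimes (ξ * α ^ q ^ n) (ξ * α ^ q ^ n + h n)} := ⟨_, rfl⟩
    rw [← hS]
    refine densityOne_of fun δ hδ => ?_
    obtain ⟨j, hj⟩ := exists_nat_one_div_lt (show (0 : ℝ) < δ / 2 by positivity)
    filter_upwards [hα K j hα1 (δ / 2) (by positivity)] with N h5
    refine le_trans (mul_le_mul_of_nonneg_right (by linarith) (Nat.cast_nonneg N)) (h5.trans ?_)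
    norm_cast
    refine Finset.card_le_card fun n hn => ?_
    rw [Finset.mem_filter] at hn ⊢
    refine ⟨hn.1, ?_⟩
    rw [hS]
    exact count_of_good (by positivity) hn.2

end Pool.Agent.Results.MP_78b39f_nt.AlmostPrimesAboveAlmostAllPowers
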