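import Pool.Agent.L7h6.PL.Cor
import Pool.Agent.W123.LR.Fin
import Pool.Agent.H646.Cheb

/-!
# Primes just above the powers of almost every real number

The question is whether `[2 ^ n, 2 ^ n + p_n]` contains a prime, where `p_n` is the `n`-th prime. Here the powers of two are
replaced by the powers `α ^ n` of almost every real number `α > 1`. The set of the `n` such that `[α ^ n, α ^ n + p_n]`
contains a prime, and even between `c₁ log n / log α` and `c₂ log n / log α` primes (the expected order of magnitude), has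
positive lower logarithmic density; the bound `c` for the density does not depend on `α`.

More generally call `x` regular if all intervals `[u, v]` with `u ≤ x ≤ v` and `K log x ≤ v - u ≤ x / 2` contain between
`c₁ (v - u) / log x` and `c₂ (v - u) / log x` primes. There are constants such that for every `ξ > 0` and almost every `α > 1`
the set of the `n` for which `ξ α ^ n` is regular has lower logarithmic density at least `c`, and for every integer `q ≥ 2` the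
set of the `n` for which `ξ α ^ (q ^ n)` is regular has lower natural density at least `c`.

The tool is new (`Pool.Agent.L7h6.PL`): if sets `Q n` of integers have lower density at least `c` in ALL windows
`(X, X + Y]`, `X ^ θ ≤ Y ≤ X`, for some fixed `θ < 1`, then for almost every `α > 1` the set of the `n` with
`⌊ξ α ^ n⌋ ∈ Q n` has lower logarithmic density at least `c` (exponential moments, blocks of exponents far apart). That the
regular integers have positive density in such windows is `Pool.Agent.W123.LR.regular` of the starting library (Hoheisel's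
theorem, sieve, maximal inequality).
-/

set_option autoImplicit false

namespace Pool.Agent.Results.MP_78b39f_nt.PowersOfAlmostEveryNumber

open MeasureTheory Set Finset Filter
open Pool.Agent.L7h6.PL (LowerWin log_law_lower lac_law_lower)
open Pool.Agent.W123.LR (Reg)

/-- the `n`-th prime, `p 1 = 2` -/
noncomputable def p (n : ℕ) : ℕ := Nat.nth Nat.Prime (n - 1)

/-- the number of the primes in `[u, v]` -/
noncomputable def primes (u v : ℝ) : ℕ := Set.ncard {q : ℕ | q.Prime ∧ u ≤ q ∧ (q : ℝ) ≤ v}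

/-- every interval `[u, v]` which contains `x`, of length between `K log x` and `x / 2`, contains between
`c₁ (v - u) / log x` and `c₂ (v - u) / log x` primes -/
def Regular (c₁ c₂ K x : ℝ) : Prop :=
  ∀ u v : ℝ, u ≤ x → x ≤ v → K * Real.log x ≤ v - u → v - u ≤ x / 2 →
    c₁ * (v - u) / Real.log x ≤ primes u v ∧ (primes u v : ℝ) ≤ c₂ * (v - u) / Real.log x

lemma primes_lower {u v : ℝ} (hu : 0 ≤ u) :
    (((Finset.Ioc ⌊u⌋₊ ⌊v⌋₊).filter Nat.Prime).card : ℝ) ≤ primes u v := by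
  have hfin : {q : ℕ | q.Prime ∧ u ≤ q ∧ (q : ℝ) ≤ v}.Finite :=
    (Set.finite_Iic ⌊v⌋₊).subset fun q hq => Nat.le_floor hq.2.2
  have h1 : (((Finset.Ioc ⌊u⌋₊ ⌊v⌋₊).filter Nat.Prime : Finset ℕ) : Set ℕ) ⊆ {q : ℕ | q.Prime ∧ u ≤ q ∧ (q : ℝ) ≤ v} := by
    intro q hq
    rw [Finset.mem_coe, Finset.mem_filter, Finset.mem_Ioc] at hq
    obtain ⟨⟨h1, h2⟩, h3⟩ := hq
    refine ⟨h3, ((Nat.floor_lt hu).1 h1).le, ?_⟩
    have h4 : 0 ≤ v := by
      by_contra hcon
      push Not at hcon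
      rw [Nat.floor_of_nonpos hcon.le] at h2
      omega
    exact (Nat.le_floor_iff h4).1 h2
  have h2 := Set.ncard_le_ncard h1 hfin
  rw [Set.ncard_coe_finset] at h2
  exact_mod_cast h2

lemma primes_upper {u v : ℝ} (hu : 1 ≤ u) :
    (primes u v : ℝ) ≤ (((Finset.Ioc (⌊u⌋₊ - 1) ⌊v⌋₊).filter Nat.Prime).card : ℝ) := by
  have h1 : {q : ℕ | q.Prime ∧ u ≤ q ∧ (q : ℝ) ≤ v} ⊆ (((Finset.Ioc (⌊u⌋₊ - 1) ⌊v⌋₊).filter Nat.Prime : Finset ℕ) : Set ℕ) := by
    rintro q ⟨h1, h2, h3⟩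
    rw [Finset.mem_coe, Finset.mem_filter, Finset.mem_Ioc]
    have h4 : ⌊u⌋₊ ≤ q := Nat.floor_le_of_le h2
    have h5 : 1 ≤ ⌊u⌋₊ := Nat.le_floor (by exact_mod_cast hu)
    exact ⟨⟨by omega, Nat.le_floor h3⟩, h1⟩
  have h2 := Set.ncard_le_ncard h1 (Finset.finite_toSet _)
  rw [Set.ncard_coe_finset] at h2
  unfold primes
  exact_mod_cast h2

/-- from integers to real numbers -/
lemma regular_of_reg {c₁ c₂ K : ℝ} (hc₁ : 0 < c₁) (hc₂ : 0 < c₂) (hK : 0 < K) : ∃ x₀ : ℝ, ∀ x : ℝ, x₀ ≤ x →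
    Reg c₁ c₂ K ⌊x⌋₊ → Regular (c₁ / 2) (2 * c₂) (K + 2) x := by
  have hlog := Real.tendsto_log_atTop.eventually_ge_atTop (8 : ℝ)
  obtain ⟨x₁, hx₁⟩ := eventually_atTop.1 (hlog.and (eventually_ge_atTop (16 : ℝ)))
  refine ⟨x₁, fun x hx hreg u v hu hv h1 h2 => ?_⟩
  obtain ⟨hl8, hx16⟩ := hx₁ x hx
  have hx0 : 0 < x := by linarith
  have hm1 : (⌊x⌋₊ : ℝ) ≤ x := Nat.floor_le hx0.le
  have hm2 : x < ⌊x⌋₊ + 1 := Nat.lt_floor_add_one x
  obtain ⟨m, hm⟩ : ∃ m, m = ⌊x⌋₊ := ⟨_, rfl⟩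
  rw [← hm] at hm1 hm2 hreg
  have hmr : (0 : ℝ) < m := by linarith
  have hmlog : Real.log m ≤ Real.log x := Real.log_le_log hmr hm1
  have hmlog2 : Real.log x ≤ Real.log m + 1 := by
    have h3 : x ≤ m * Real.exp 1 := by
      have := Real.add_one_le_exp (1 : ℝ)
      nlinarith
    have h4 := Real.log_le_log hx0 h3
    rwa [Real.log_mul hmr.ne' (Real.exp_pos 1).ne', Real.log_exp] at h4
  have hmlog0 : 0 < Real.log m := by linarith
  have hu0 : x / 2 ≤ u := by linarith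
  have hu1 : 1 ≤ u := by linarith
  have hv0 : 0 ≤ v := by linarith
  have hfu1 : (⌊u⌋₊ : ℝ) ≤ u := Nat.floor_le (by linarith)
  have hfu2 : u < ⌊u⌋₊ + 1 := Nat.lt_floor_add_one u
  have hfv1 : (⌊v⌋₊ : ℝ) ≤ v := Nat.floor_le hv0
  have hfv2 : v < ⌊v⌋₊ + 1 := Nat.lt_floor_add_one v
  have hum : ⌊u⌋₊ ≤ m := by rw [hm]; exact Nat.floor_mono hu
  have hmv : m ≤ ⌊v⌋₊ := by rw [hm]; exact Nat.floor_mono hv
  have hlen : (K + 2) * Real.log x ≤ v - u := h1
  have hlen16 : 16 ≤ v - u := by nlinarith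
  have hKl : K * Real.log m ≤ K * Real.log x := mul_le_mul_of_nonneg_left hmlog hK.le
  constructor
  · obtain ⟨h3, -⟩ := hreg ⌊u⌋₊ ⌊v⌋₊ hum hmv (by nlinarith) (by nlinarith)
    refine le_trans ?_ (h3.trans (primes_lower (by linarith)))
    rw [div_le_div_iff₀ (by linarith) hmlog0]
    have h4 : (v - u) / 2 ≤ (⌊v⌋₊ : ℝ) - ⌊u⌋₊ := by linarith
    have h5 : c₁ / 2 * (v - u) * Real.log m ≤ c₁ / 2 * (v - u) * Real.log x :=
      mul_le_mul_of_nonneg_left hmlog (by positivity)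
    have h6 : c₁ * ((v - u) / 2) * Real.log x ≤ c₁ * ((⌊v⌋₊ : ℝ) - ⌊u⌋₊) * Real.log x :=
      mul_le_mul_of_nonneg_right (mul_le_mul_of_nonneg_left h4 hc₁.le) (by linarith)
    linarith
  · have hpos : 1 ≤ ⌊u⌋₊ := Nat.le_floor (by exact_mod_cast hu1)
    have hcast : ((⌊u⌋₊ - 1 : ℕ) : ℝ) = ⌊u⌋₊ - 1 := by
      rw [Nat.cast_sub hpos]
      push_cast
      ring
    obtain ⟨-, h3⟩ := hreg (⌊u⌋₊ - 1) ⌊v⌋₊ (by omega) hmv (by rw [hcast]; nlinarith) (by rw [hcast]; nlinarith)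
    rw [hcast] at h3
    refine (primes_upper hu1).trans (h3.trans ?_)
    rw [div_le_div_iff₀ hmlog0 (by linarith)]
    have h4 : (⌊v⌋₊ : ℝ) - (⌊u⌋₊ - 1) ≤ (v - u) * (9 / 8) := by linarith
    have h5 : Real.log x ≤ Real.log m * (8 / 7) := by linarith
    calc c₂ * ((⌊v⌋₊ : ℝ) - (⌊u⌋₊ - 1)) * Real.log x
        ≤ c₂ * ((v - u) * (9 / 8)) * (Real.log m * (8 / 7)) := by
          apply mul_le_mul (mul_le_mul_of_nonneg_left h4 hc₂.le) h5 (by linarith)
          have : 0 ≤ v - u := by linarith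
          positivity
      _ ≤ 2 * c₂ * (v - u) * Real.log m := by
          have : 0 ≤ c₂ * (v - u) * Real.log m := by
            have : 0 ≤ v - u := by linarith
            positivity
          nlinarith

/-- the `n`-th prime is at least `n log n / 2` -/
lemma p_lower : ∀ᶠ n : ℕ in atTop, (n : ℝ) * Real.log n / 2 ≤ p n := by
  have h4 : Real.log 4 < 1.5 := by
    have : Real.log 4 = 2 * Real.log 2 := by
      rw [show (4 : ℝ) = 2 ^ 2 by norm_num, Real.log_pow]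
      norm_num
    rw [this]
    have := Real.log_two_lt_d9
    linarith
  have h := Chebyshev.eventually_primeCounting_le (ε := 1 / 2) (by norm_num)
  obtain ⟨x₀, hx₀⟩ := eventually_atTop.1 h
  obtain ⟨N₀, hN₀⟩ := exists_nat_ge x₀
  filter_upwards [eventually_ge_atTop (max N₀ 2)] with n hn
  have hn2 : 2 ≤ n := (le_max_right _ _).trans hn
  have hnN : N₀ ≤ n := (le_max_left _ _).trans hn
  obtain ⟨k, rfl⟩ : ∃ k, n = k + 1 := ⟨n - 1, by omega⟩
  have hp : p (k + 1) = Nat.nth Nat.Prime k := rfl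
  have hge : k + 2 ≤ p (k + 1) := by rw [hp]; exact Nat.add_two_le_nth_prime k
  have hcount : (p (k + 1)).primeCounting = k + 1 := by
    have h1 := Nat.primeCounting'_nth_eq k
    unfold Nat.primeCounting
    unfold Nat.primeCounting' at h1 ⊢
    rw [hp, Nat.count_succ, if_pos (Nat.prime_nth_prime k)]
    exact congrArg (· + 1) h1
  have h5 := hx₀ (p (k + 1) : ℝ) (hN₀.trans (by exact_mod_cast (show N₀ ≤ p (k + 1) by omega)))
  rw [Nat.floor_natCast, hcount] at h5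
  have hpr : ((k + 2 : ℕ) : ℝ) ≤ p (k + 1) := by exact_mod_cast hge
  push_cast at hpr h5 ⊢
  have hk0 : (0 : ℝ) ≤ k := Nat.cast_nonneg k
  have hk1 : (1 : ℝ) ≤ k := by exact_mod_cast (show 1 ≤ k by omega)
  have hlogp : 0 < Real.log (p (k + 1)) := Real.log_pos (by linarith)
  rw [le_div_iff₀ hlogp] at h5
  have hlog : Real.log ((k : ℝ) + 1) ≤ Real.log (p (k + 1)) := Real.log_le_log (by linarith) (by linarith)
  have h6 : ((k : ℝ) + 1) * Real.log ((k : ℝ) + 1) ≤ (k + 1) * Real.log (p (k + 1)) :=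
    mul_le_mul_of_nonneg_left hlog (by linarith)
  nlinarith

/-- the `n`-th prime is at most `C n log n` -/
lemma p_upper : ∃ C : ℝ, 1 ≤ C ∧ ∀ᶠ n : ℕ in atTop, (p n : ℝ) ≤ C * (n * Real.log n) := by
  obtain ⟨C, hC1, hC⟩ := Pool.Agent.H646.ChebM.P_le
  refine ⟨C, hC1, ?_⟩
  filter_upwards [eventually_ge_atTop 3] with n hn
  have h1 : p n ≤ Nat.nth Nat.Prime n := Nat.nth_monotone Nat.infinite_setOfPred_prime (Nat.sub_le n 1)
  have h2 : ((Nat.nth Nat.Prime n : ℕ) : ℝ) ≤ C * (n * Real.log n) := hC n (by omega)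
  have h3 : (p n : ℝ) ≤ (Nat.nth Nat.Prime n : ℕ) := by exact_mod_cast h1
  exact h3.trans h2

lemma lower_win {Q : Set ℕ} {θ c : ℝ} (hθ0 : 0 < θ) (e : ℕ → ℝ) (he : Tendsto e atTop atTop)
    (h : ∀ᶠ X : ℕ in atTop, ∀ Y : ℕ, (X : ℝ) ^ θ ≤ Y → Y ≤ X →
      c * Y ≤ ({m : ℕ | X < m ∧ m ≤ X + Y ∧ m ∈ Q}.ncard : ℝ)) :
    LowerWin (fun _ => Q) e θ c := by
  intro A B hA _
  obtain ⟨X₀, hX₀⟩ := eventually_atTop.1 h
  have h1 : Tendsto (fun n => A ^ e n) atTop atTop := (tendsto_rpow_atTop_of_base_gt_one A hA).comp he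
  obtain ⟨n₀, hn₀⟩ := eventually_atTop.1 (h1.eventually_ge_atTop (X₀ : ℝ))
  refine ⟨n₀, fun n hn X Y h2 _ h4 h5 => hX₀ X ?_ Y h4 h5⟩
  exact_mod_cast (hn₀ n hn).trans h2

open Classical in
/-- **Primes just above the powers of almost every real number.** -/
theorem result : ∃ c c₁ c₂ K : ℝ, 0 < c ∧ 0 < c₁ ∧ 0 < c₂ ∧ 0 < K ∧
    (∀ᵐ α : ℝ, 1 < α → ∀ᶠ N : ℕ in atTop, c * Real.log N ≤
      ∑ n ∈ (Finset.Icc 1 N).filter (fun n : ℕ => c₁ * Real.log n / Real.log α ≤ primes (α ^ n) (α ^ n + p n) ∧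
        (primes (α ^ n) (α ^ n + p n) : ℝ) ≤ c₂ * Real.log n / Real.log α), 1 / (n : ℝ)) ∧
    (∀ ξ : ℝ, 0 < ξ → ∀ᵐ α : ℝ, 1 < α → ∀ᶠ N : ℕ in atTop, c * Real.log N ≤
      ∑ n ∈ (Finset.Icc 1 N).filter (fun n : ℕ => Regular c₁ c₂ K (ξ * α ^ n)), 1 / (n : ℝ)) ∧
    (∀ ξ : ℝ, 0 < ξ → ∀ q : ℕ, 2 ≤ q → ∀ᵐ α : ℝ, 1 < α → ∀ᶠ N : ℕ in atTop,
      c * N ≤ (#{n ∈ range N | Regular c₁ c₂ K (ξ * α ^ (q ^ n))} : ℝ)) := by
  obtain ⟨θ, hθ0, hθ1, hS⟩ := Pool.Agent.H932R4.MO.exists_short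
  obtain ⟨d₁, d₂, K, c, hd₁, hd₂, hK, hc, hreg⟩ := Pool.Agent.W123.LR.regular θ hθ0 hθ1.le hS
  obtain ⟨Q, hQ⟩ : ∃ Q : Set ℕ, Q = {m : ℕ | Reg d₁ d₂ K m} := ⟨_, rfl⟩
  have hQm : ∀ m, m ∈ Q ↔ Reg d₁ d₂ K m := fun m => by rw [hQ]; rfl
  -- density of the regular integers in windows
  obtain ⟨c', hc'⟩ : ∃ c', c' = min c 1 := ⟨_, rfl⟩
  have hc'0 : 0 < c' := by rw [hc']; exact lt_min hc one_pos
  have hc'1 : c' ≤ 1 := by rw [hc']; exact min_le_right _ _
  have hwin : ∀ᶠ X : ℕ in atTop, ∀ Y : ℕ, (X : ℝ) ^ θ ≤ Y → Y ≤ X →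
      c' * Y ≤ ({m : ℕ | X < m ∧ m ≤ X + Y ∧ m ∈ Q}.ncard : ℝ) := by
    filter_upwards [hreg] with X hX Y h1 h2
    have h3 := hX Y h1 h2
    have e1 : {m : ℕ | X < m ∧ m ≤ X + Y ∧ m ∈ Q} =
        ↑((Finset.Ioc X (X + Y)).filter (fun n => Reg d₁ d₂ K n)) := by
      ext m
      simp only [coe_filter, Finset.mem_Ioc, Set.mem_ofPred_eq, hQm]
      tauto
    rw [e1, Set.ncard_coe_finset]
    refine le_trans (mul_le_mul_of_nonneg_right (by rw [hc']; exact min_le_left _ _) (Nat.cast_nonneg Y)) h3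
  obtain ⟨x₀, hx₀⟩ := regular_of_reg hd₁ hd₂ hK
  -- the powers `ξ α ^ n`
  have hpow : ∀ ξ : ℝ, 0 < ξ → ∀ᵐ α : ℝ, 1 < α → ∀ᶠ N : ℕ in atTop, c' / 2 * Real.log N ≤
      ∑ n ∈ (Finset.Icc 1 N).filter (fun n : ℕ => Regular (d₁ / 2) (2 * d₂) (K + 2) (ξ * α ^ n)), 1 / (n : ℝ) := by
    intro ξ hξ
    have h1 := log_law_lower (Q := fun _ => Q) hξ hθ0 hθ1 hc'0.le hc'1
      (lower_win hθ0 (fun n => (n : ℝ)) tendsto_natCast_atTop_atTop hwin)
    filter_upwards [h1] with α hα hα1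
    have hlim : Tendsto (fun n : ℕ => ξ * α ^ n) atTop atTop :=
      (tendsto_pow_atTop_atTop_of_one_lt hα1).const_mul_atTop hξ
    obtain ⟨n₀, hn₀⟩ := eventually_atTop.1 (hlim.eventually_ge_atTop x₀)
    have hlimlog : Tendsto (fun N : ℕ => Real.log N) atTop atTop :=
      Real.tendsto_log_atTop.comp tendsto_natCast_atTop_atTop
    filter_upwards [hα hα1 (c' / 4) (by positivity), hlimlog.eventually_ge_atTop (4 / c' * n₀)] with N hN hN2
    have h2 : ∑ n ∈ (Finset.Icc 1 N).filter (fun n => ⌊ξ * α ^ n⌋₊ ∈ Q), 1 / (n : ℝ) ≤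
        ∑ n ∈ (Finset.Icc 1 N).filter (fun n : ℕ => Regular (d₁ / 2) (2 * d₂) (K + 2) (ξ * α ^ n)), 1 / (n : ℝ) +
        ∑ n ∈ Finset.Icc 1 n₀, 1 / (n : ℝ) := by
      rw [← Finset.sum_union_inter]
      have h3 : 0 ≤ ∑ n ∈ (Finset.Icc 1 N).filter (fun n : ℕ => Regular (d₁ / 2) (2 * d₂) (K + 2) (ξ * α ^ n)) ∩
          Finset.Icc 1 n₀, 1 / (n : ℝ) := Finset.sum_nonneg fun n _ => by positivity
      have h4 : ∑ n ∈ (Finset.Icc 1 N).filter (fun n => ⌊ξ * α ^ n⌋₊ ∈ Q), 1 / (n : ℝ) ≤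
          ∑ n ∈ (Finset.Icc 1 N).filter (fun n : ℕ => Regular (d₁ / 2) (2 * d₂) (K + 2) (ξ * α ^ n)) ∪
          Finset.Icc 1 n₀, 1 / (n : ℝ) := by
        refine Finset.sum_le_sum_of_subset_of_nonneg (fun n hn => ?_) (fun n _ _ => by positivity)
        rw [Finset.mem_filter] at hn
        rw [Finset.mem_union, Finset.mem_filter]
        rcases le_total n n₀ with h5 | h5
        · exact Or.inr (Finset.mem_Icc.2 ⟨(Finset.mem_Icc.1 hn.1).1, h5⟩)
        · exact Or.inl ⟨hn.1, hx₀ _ (hn₀ n h5) ((hQm _).1 hn.2)⟩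
      linarith
    have h3 : ∑ n ∈ Finset.Icc 1 n₀, 1 / (n : ℝ) ≤ n₀ := by
      calc _ ≤ ∑ n ∈ Finset.Icc 1 n₀, (1 : ℝ) := by
            refine Finset.sum_le_sum fun n hn => ?_
            rw [Finset.mem_Icc] at hn
            rw [div_le_one (by exact_mod_cast hn.1)]
            exact_mod_cast hn.1
        _ = n₀ := by simp
    have h4 : (n₀ : ℝ) ≤ c' / 4 * Real.log N := by
      have := mul_le_mul_of_nonneg_left hN2 (show 0 ≤ c' / 4 by positivity)
      have e : c' / 4 * (4 / c' * n₀) = n₀ := by field_simp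
      rwa [e] at this
    linarith
  have hlac : ∀ ξ : ℝ, 0 < ξ → ∀ q : ℕ, 2 ≤ q → ∀ᵐ α : ℝ, 1 < α → ∀ᶠ N : ℕ in atTop,
      c' / 2 * N ≤ (#{n ∈ range N | Regular (d₁ / 2) (2 * d₂) (K + 2) (ξ * α ^ (q ^ n))} : ℝ) := by
    intro ξ hξ q hq
    have hq1 : (1 : ℝ) < q := by exact_mod_cast (show 1 < q by omega)
    have h1 := lac_law_lower (Q := fun _ => Q) hq hξ hθ0 hθ1 hc'0.le hc'1
      (lower_win hθ0 (fun n => (q : ℝ) ^ n) (tendsto_pow_atTop_atTop_of_one_lt hq1) hwin)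
    filter_upwards [h1] with α hα hα1
    have hlim : Tendsto (fun n : ℕ => ξ * α ^ (q ^ n)) atTop atTop :=
      ((tendsto_pow_atTop_atTop_of_one_lt hα1).comp (tendsto_pow_atTop_atTop_of_one_lt (show 1 < q by omega))).const_mul_atTop hξ
    obtain ⟨n₀, hn₀⟩ := eventually_atTop.1 (hlim.eventually_ge_atTop x₀)
    obtain ⟨N₁, hN₁⟩ := exists_nat_ge (4 / c' * n₀)
    filter_upwards [hα hα1 (c' / 4) (by positivity), eventually_ge_atTop N₁] with N hN hN2
    have h2 : #{n ∈ range N | ⌊ξ * α ^ (q ^ n)⌋₊ ∈ Q} ≤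
        #{n ∈ range N | Regular (d₁ / 2) (2 * d₂) (K + 2) (ξ * α ^ (q ^ n))} + n₀ := by
      rw [← card_range n₀]
      refine le_trans (Finset.card_le_card fun n hn => ?_) (Finset.card_union_le _ _)
      rw [Finset.mem_filter] at hn
      rw [Finset.mem_union, Finset.mem_filter]
      rcases lt_or_ge n n₀ with h5 | h5
      · exact Or.inr (Finset.mem_range.2 h5)
      · exact Or.inl ⟨hn.1, hx₀ _ (hn₀ n h5) ((hQm _).1 hn.2)⟩
    have h3 : (#{n ∈ range N | ⌊ξ * α ^ (q ^ n)⌋₊ ∈ Q} : ℝ) ≤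
        (#{n ∈ range N | Regular (d₁ / 2) (2 * d₂) (K + 2) (ξ * α ^ (q ^ n))} : ℝ) + n₀ := by exact_mod_cast h2
    have h4 : (n₀ : ℝ) ≤ c' / 4 * N := by
      have h5 : (N₁ : ℝ) ≤ N := by exact_mod_cast hN2
      have h6 := mul_le_mul_of_nonneg_left (hN₁.trans h5) (show 0 ≤ c' / 4 by positivity)
      have e : c' / 4 * (4 / c' * n₀) = n₀ := by field_simp
      rwa [e] at h6
    linarith
  obtain ⟨C, hC1, hpu⟩ := p_upper
  have hmono : ∀ x : ℝ, 1 < x → Regular (d₁ / 2) (2 * d₂) (K + 2) x → Regular (d₁ / 4) (2 * d₂ * C) (K + 2) x := by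
    intro x hx h u v hu hv h1 h2
    obtain ⟨h3, h4⟩ := h u v hu hv h1 h2
    have hlog : 0 < Real.log x := Real.log_pos hx
    have hvu : 0 ≤ v - u := by linarith
    constructor
    · refine le_trans ?_ h3
      rw [div_le_div_iff_of_pos_right hlog]
      nlinarith
    · refine h4.trans ?_
      rw [div_le_div_iff_of_pos_right hlog]
      have : 2 * d₂ * 1 ≤ 2 * d₂ * C := mul_le_mul_of_nonneg_left hC1 (by linarith)
      nlinarith
  refine ⟨c' / 4, d₁ / 4, 2 * d₂ * C, K + 2, by positivity, by positivity, by positivity, by positivity, ?_, ?_, ?_⟩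
  · filter_upwards [hpow 1 one_pos] with α hα hα1
    have hlogα : 0 < Real.log α := Real.log_pos hα1
    have hlimlog : Tendsto (fun N : ℕ => Real.log N) atTop atTop :=
      Real.tendsto_log_atTop.comp tendsto_natCast_atTop_atTop
    -- for large `n` the regular powers satisfy the claim
    have hev : ∀ᶠ n : ℕ in atTop, Regular (d₁ / 2) (2 * d₂) (K + 2) (1 * α ^ n) →
        d₁ / 4 * Real.log n / Real.log α ≤ primes (α ^ n) (α ^ n + p n) ∧
          (primes (α ^ n) (α ^ n + p n) : ℝ) ≤ 2 * d₂ * C * Real.log n / Real.log α := by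
      have h1 : ∀ᶠ n : ℕ in atTop, C * ((n : ℝ) * Real.log n) ≤ α ^ n / 2 := by
        have h2 : (fun n : ℕ => (n : ℝ) ^ 2) =o[atTop] fun n : ℕ => α ^ n :=
          isLittleO_pow_const_const_pow_of_one_lt 2 hα1
        have h3 := h2.bound (show (0 : ℝ) < 1 / (2 * C) by positivity)
        filter_upwards [h3, eventually_ge_atTop 1] with n hn hn1
        have hn1' : (1 : ℝ) ≤ n := by exact_mod_cast hn1
        rw [Real.norm_of_nonneg (by positivity), Real.norm_of_nonneg (by positivity)] at hn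
        have h4 : Real.log n ≤ n := by
          have := Real.log_le_sub_one_of_pos (show (0 : ℝ) < n by linarith)
          linarith
        calc C * ((n : ℝ) * Real.log n) ≤ C * ((n : ℝ) * n) := by gcongr
          _ = C * (n : ℝ) ^ 2 := by ring
          _ ≤ C * (1 / (2 * C) * α ^ n) := mul_le_mul_of_nonneg_left hn (by linarith)
          _ = α ^ n / 2 := by
            have : C ≠ 0 := by linarith
            field_simp
      filter_upwards [h1, hpu, p_lower, hlimlog.eventually_ge_atTop (2 * (K + 2) * Real.log α),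
        eventually_ge_atTop 2] with n g1 g2 g3 g4 g5 hr
      rw [one_mul] at hr
      have hn0 : (0 : ℝ) < n := by exact_mod_cast (show 0 < n by omega)
      have hln : 0 < Real.log n := Real.log_pos (by exact_mod_cast (show 1 < n by omega))
      have hlx : Real.log (α ^ n) = n * Real.log α := by rw [Real.log_pow]
      have hp0 : (0 : ℝ) ≤ p n := Nat.cast_nonneg _
      have h2 : α ^ n + (p n : ℝ) - α ^ n = p n := by ring
      obtain ⟨h3, h4⟩ := hr (α ^ n) (α ^ n + p n) le_rfl (by linarith) (by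
        rw [h2, hlx]
        refine le_trans ?_ g3
        nlinarith) (by
        rw [h2]
        exact g2.trans g1)
      rw [h2, hlx] at h3 h4
      constructor
      · refine le_trans ?_ h3
        rw [div_le_div_iff₀ hlogα (by positivity)]
        have h5 : d₁ / 4 * Real.log n * (n * Real.log α) = d₁ / 2 * (n * Real.log n / 2) * Real.log α := by ring
        rw [h5]
        exact mul_le_mul_of_nonneg_right (mul_le_mul_of_nonneg_left g3 (by linarith)) hlogα.le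
      · refine h4.trans ?_
        rw [div_le_div_iff₀ (by positivity) hlogα]
        have h5 : 2 * d₂ * C * Real.log n * (n * Real.log α) = 2 * d₂ * (C * (n * Real.log n)) * Real.log α := by ring
        rw [h5]
        exact mul_le_mul_of_nonneg_right (mul_le_mul_of_nonneg_left g2 (by linarith)) hlogα.le
    obtain ⟨n₀, hn₀⟩ := eventually_atTop.1 hev
    filter_upwards [hα hα1, hlimlog.eventually_ge_atTop (4 / c' * n₀)] with N hN hN2
    have h2 : ∑ n ∈ (Finset.Icc 1 N).filter (fun n : ℕ => Regular (d₁ / 2) (2 * d₂) (K + 2) (1 * α ^ n)), 1 / (n : ℝ) ≤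
        ∑ n ∈ (Finset.Icc 1 N).filter (fun n : ℕ => d₁ / 4 * Real.log n / Real.log α ≤ primes (α ^ n) (α ^ n + p n) ∧
        (primes (α ^ n) (α ^ n + p n) : ℝ) ≤ 2 * d₂ * C * Real.log n / Real.log α), 1 / (n : ℝ) +
        ∑ n ∈ Finset.Icc 1 n₀, 1 / (n : ℝ) := by
      rw [← Finset.sum_union_inter]
      have h3 : 0 ≤ ∑ n ∈ (Finset.Icc 1 N).filter (fun n : ℕ => d₁ / 4 * Real.log n / Real.log α ≤
          primes (α ^ n) (α ^ n + p n) ∧ (primes (α ^ n) (α ^ n + p n) : ℝ) ≤ 2 * d₂ * C * Real.log n / Real.log α) ∩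
          Finset.Icc 1 n₀, 1 / (n : ℝ) := Finset.sum_nonneg fun n _ => by positivity
      have h4 : ∑ n ∈ (Finset.Icc 1 N).filter (fun n : ℕ => Regular (d₁ / 2) (2 * d₂) (K + 2) (1 * α ^ n)), 1 / (n : ℝ) ≤
          ∑ n ∈ (Finset.Icc 1 N).filter (fun n : ℕ => d₁ / 4 * Real.log n / Real.log α ≤
          primes (α ^ n) (α ^ n + p n) ∧ (primes (α ^ n) (α ^ n + p n) : ℝ) ≤ 2 * d₂ * C * Real.log n / Real.log α) ∪
          Finset.Icc 1 n₀, 1 / (n : ℝ) := by
        refine Finset.sum_le_sum_of_subset_of_nonneg (fun n hn => ?_) (fun n _ _ => by positivity)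
        rw [Finset.mem_filter] at hn
        rw [Finset.mem_union, Finset.mem_filter]
        rcases le_total n n₀ with h5 | h5
        · exact Or.inr (Finset.mem_Icc.2 ⟨(Finset.mem_Icc.1 hn.1).1, h5⟩)
        · exact Or.inl ⟨hn.1, hn₀ n h5 hn.2⟩
      linarith
    have h3 : ∑ n ∈ Finset.Icc 1 n₀, 1 / (n : ℝ) ≤ n₀ := by
      calc _ ≤ ∑ n ∈ Finset.Icc 1 n₀, (1 : ℝ) := by
            refine Finset.sum_le_sum fun n hn => ?_
            rw [Finset.mem_Icc] at hn
            rw [div_le_one (by exact_mod_cast hn.1)]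
            exact_mod_cast hn.1
        _ = n₀ := by simp
    have h4 : (n₀ : ℝ) ≤ c' / 4 * Real.log N := by
      have := mul_le_mul_of_nonneg_left hN2 (show 0 ≤ c' / 4 by positivity)
      have e : c' / 4 * (4 / c' * n₀) = n₀ := by field_simp
      rwa [e] at this
    linarith
  · intro ξ hξ
    filter_upwards [hpow ξ hξ] with α hα hα1
    have hlim : Tendsto (fun n : ℕ => ξ * α ^ n) atTop atTop :=
      (tendsto_pow_atTop_atTop_of_one_lt hα1).const_mul_atTop hξ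
    obtain ⟨n₀, hn₀⟩ := eventually_atTop.1 (hlim.eventually_gt_atTop 1)
    have hlimlog : Tendsto (fun N : ℕ => Real.log N) atTop atTop :=
      Real.tendsto_log_atTop.comp tendsto_natCast_atTop_atTop
    filter_upwards [hα hα1, hlimlog.eventually_ge_atTop (4 / c' * n₀)] with N hN hN2
    have h2 : ∑ n ∈ (Finset.Icc 1 N).filter (fun n : ℕ => Regular (d₁ / 2) (2 * d₂) (K + 2) (ξ * α ^ n)), 1 / (n : ℝ) ≤
        ∑ n ∈ (Finset.Icc 1 N).filter (fun n : ℕ => Regular (d₁ / 4) (2 * d₂ * C) (K + 2) (ξ * α ^ n)), 1 / (n : ℝ) +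
        ∑ n ∈ Finset.Icc 1 n₀, 1 / (n : ℝ) := by
      rw [← Finset.sum_union_inter]
      have h3 : 0 ≤ ∑ n ∈ (Finset.Icc 1 N).filter (fun n : ℕ => Regular (d₁ / 4) (2 * d₂ * C) (K + 2) (ξ * α ^ n)) ∩
          Finset.Icc 1 n₀, 1 / (n : ℝ) := Finset.sum_nonneg fun n _ => by positivity
      have h4 : ∑ n ∈ (Finset.Icc 1 N).filter (fun n : ℕ => Regular (d₁ / 2) (2 * d₂) (K + 2) (ξ * α ^ n)), 1 / (n : ℝ) ≤
          ∑ n ∈ (Finset.Icc 1 N).filter (fun n : ℕ => Regular (d₁ / 4) (2 * d₂ * C) (K + 2) (ξ * α ^ n)) ∪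
          Finset.Icc 1 n₀, 1 / (n : ℝ) := by
        refine Finset.sum_le_sum_of_subset_of_nonneg (fun n hn => ?_) (fun n _ _ => by positivity)
        rw [Finset.mem_filter] at hn
        rw [Finset.mem_union, Finset.mem_filter]
        rcases le_total n n₀ with h5 | h5
        · exact Or.inr (Finset.mem_Icc.2 ⟨(Finset.mem_Icc.1 hn.1).1, h5⟩)
        · exact Or.inl ⟨hn.1, hmono _ (hn₀ n h5) hn.2⟩
      linarith
    have h3 : ∑ n ∈ Finset.Icc 1 n₀, 1 / (n : ℝ) ≤ n₀ := by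
      calc _ ≤ ∑ n ∈ Finset.Icc 1 n₀, (1 : ℝ) := by
            refine Finset.sum_le_sum fun n hn => ?_
            rw [Finset.mem_Icc] at hn
            rw [div_le_one (by exact_mod_cast hn.1)]
            exact_mod_cast hn.1
        _ = n₀ := by simp
    have h4 : (n₀ : ℝ) ≤ c' / 4 * Real.log N := by
      have := mul_le_mul_of_nonneg_left hN2 (show 0 ≤ c' / 4 by positivity)
      have e : c' / 4 * (4 / c' * n₀) = n₀ := by field_simp
      rwa [e] at this
    linarith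
  · intro ξ hξ q hq
    filter_upwards [hlac ξ hξ q hq] with α hα hα1
    have hlim : Tendsto (fun n : ℕ => ξ * α ^ (q ^ n)) atTop atTop :=
      ((tendsto_pow_atTop_atTop_of_one_lt hα1).comp
        (tendsto_pow_atTop_atTop_of_one_lt (show 1 < q by omega))).const_mul_atTop hξ
    obtain ⟨n₀, hn₀⟩ := eventually_atTop.1 (hlim.eventually_gt_atTop 1)
    obtain ⟨N₁, hN₁⟩ := exists_nat_ge (4 / c' * n₀)
    filter_upwards [hα hα1, eventually_ge_atTop N₁] with N hN hN2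
    have h2 : #{n ∈ range N | Regular (d₁ / 2) (2 * d₂) (K + 2) (ξ * α ^ (q ^ n))} ≤
        #{n ∈ range N | Regular (d₁ / 4) (2 * d₂ * C) (K + 2) (ξ * α ^ (q ^ n))} + n₀ := by
      rw [← card_range n₀]
      refine le_trans (Finset.card_le_card fun n hn => ?_) (Finset.card_union_le _ _)
      rw [Finset.mem_filter] at hn
      rw [Finset.mem_union, Finset.mem_filter]
      rcases lt_or_ge n n₀ with h5 | h5
      · exact Or.inr (Finset.mem_range.2 h5)
      · exact Or.inl ⟨hn.1, hmono _ (hn₀ n h5) hn.2⟩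
    have h3 : (#{n ∈ range N | Regular (d₁ / 2) (2 * d₂) (K + 2) (ξ * α ^ (q ^ n))} : ℝ) ≤
        (#{n ∈ range N | Regular (d₁ / 4) (2 * d₂ * C) (K + 2) (ξ * α ^ (q ^ n))} : ℝ) + n₀ := by exact_mod_cast h2
    have h4 : (n₀ : ℝ) ≤ c' / 4 * N := by
      have h5 : (N₁ : ℝ) ≤ N := by exact_mod_cast hN2
      have h6 := mul_le_mul_of_nonneg_left (hN₁.trans h5) (show 0 ≤ c' / 4 by positivity)
      have e : c' / 4 * (4 / c' * n₀) = n₀ := by field_simp
      rwa [e] at h6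
    linarith

end Pool.Agent.Results.MP_78b39f_nt.PowersOfAlmostEveryNumber
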