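import Pool.Agent.L7h6.PX.Main
import Pool.Agent.Results.MP_78b39f_nt.PowersOfAlmostEveryNumber
import Pool.Agent.Results.MP_78b39f_nt.AlmostPrimesAboveAlmostAllPowers

/-!
# Primes just above almost all multiples of the powers of two

The question is whether `[2 ^ n, 2 ^ n + p_n]` contains a prime, where `p_n` is the `n`-th prime. Here the base `2` is KEPT
(more generally any fixed real base `B > 1`), and the powers are multiplied by a real number `x`. For almost every `x > 0`:

* the set of the `n` such that `[x 2 ^ n, x 2 ^ n + p_n]` contains a prime, and even between `c₁ log n` and `c₂ log n` primes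
  (the expected order of magnitude), has lower logarithmic density at least `c > 0`; `c`, `c₁`, `c₂` are absolute constants;
* the set of the `n` such that `x 2 ^ n` is regular (ALL intervals which contain it, of length between `K log (x 2 ^ n)` and
  `x 2 ^ n / 2`, contain the expected order of magnitude of primes) has lower logarithmic density at least `c`;
* for every `k` the set of the `n` such that `[x 2 ^ n, x 2 ^ n + p_n]` contains at least `k` integers with at most three prime
  factors, all of them large, has logarithmic density one.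

The tool is new (`Pool.Agent.L7h6.PX`): the transfer of density in windows `(X, X + Y]`, `X ^ θ ≤ Y ≤ X`, to the values
`⌊x B ^ n⌋` at almost every `x`, for a fixed base.
-/

set_option autoImplicit false

namespace Pool.Agent.Results.MP_78b39f_nt.MultiplesOfPowers

open MeasureTheory Set Finset Filter
open Pool.Agent.L7h6.PL (LowerWin)
open Pool.Agent.L7h6.PX (log_law_lower)
open Pool.Agent.L7h6.PR (Good lowerWin nth_tendsto)
open Pool.Agent.W123.LR (Reg)
open Pool.Agent.Results.MP_78b39f_nt.PowersOfAlmostEveryNumber (p primes Regular regular_of_reg p_lower p_upper lower_win)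
open Pool.Agent.Results.MP_78b39f_nt.AlmostPrimesAboveAlmostAllPowers (AlmostPrime almostPrimes LogDensityOne
  logDensityOne_of count_of_good)

open Classical in
/-- the lower logarithmic density of `S` is at least `c`: the sum of `1 / n` over the `n ≤ N` in `S` is at least `c log N` for
all large `N` -/
def LowerLogDensity (c : ℝ) (S : Set ℕ) : Prop :=
  ∀ᶠ N : ℕ in atTop, c * Real.log N ≤ ∑ n ∈ (Finset.Icc 1 N).filter (fun n => n ∈ S), 1 / (n : ℝ)

lemma LowerLogDensity.transfer {c : ℝ} {S S' : Set ℕ} (hc : 0 < c) (hS : LowerLogDensity c S)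
    (h : ∀ᶠ n in atTop, n ∈ S → n ∈ S') : LowerLogDensity (c / 2) S' := by
  classical
  obtain ⟨n₀, hn₀⟩ := eventually_atTop.1 h
  have hlimlog : Tendsto (fun N : ℕ => Real.log N) atTop atTop :=
    Real.tendsto_log_atTop.comp tendsto_natCast_atTop_atTop
  unfold LowerLogDensity at hS ⊢
  filter_upwards [hS, hlimlog.eventually_ge_atTop (2 / c * n₀)] with N hN hN2
  have h2 : ∑ n ∈ (Finset.Icc 1 N).filter (fun n => n ∈ S), 1 / (n : ℝ) ≤
      ∑ n ∈ (Finset.Icc 1 N).filter (fun n => n ∈ S'), 1 / (n : ℝ) + ∑ n ∈ Finset.Icc 1 n₀, 1 / (n : ℝ) := by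
    rw [← Finset.sum_union_inter]
    have h3 : 0 ≤ ∑ n ∈ (Finset.Icc 1 N).filter (fun n => n ∈ S') ∩ Finset.Icc 1 n₀, 1 / (n : ℝ) :=
      Finset.sum_nonneg fun n _ => by positivity
    have h4 : ∑ n ∈ (Finset.Icc 1 N).filter (fun n => n ∈ S), 1 / (n : ℝ) ≤
        ∑ n ∈ (Finset.Icc 1 N).filter (fun n => n ∈ S') ∪ Finset.Icc 1 n₀, 1 / (n : ℝ) := by
      refine Finset.sum_le_sum_of_subset_of_nonneg (fun n hn => ?_) (fun n _ _ => by positivity)
      rw [Finset.mem_filter] at hn
      rw [Finset.mem_union, Finset.mem_filter]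
      rcases le_total n n₀ with h5 | h5
      · exact Or.inr (Finset.mem_Icc.2 ⟨(Finset.mem_Icc.1 hn.1).1, h5⟩)
      · exact Or.inl ⟨hn.1, hn₀ n h5 hn.2⟩
    linarith
  have h3 : ∑ n ∈ Finset.Icc 1 n₀, 1 / (n : ℝ) ≤ n₀ := by
    calc _ ≤ ∑ n ∈ Finset.Icc 1 n₀, (1 : ℝ) := by
          refine Finset.sum_le_sum fun n hn => ?_
          rw [Finset.mem_Icc] at hn
          rw [div_le_one (by exact_mod_cast hn.1)]
          exact_mod_cast hn.1
      _ = n₀ := by simp
  have h4 : (n₀ : ℝ) ≤ c / 2 * Real.log N := by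
    have := mul_le_mul_of_nonneg_left hN2 (show 0 ≤ c / 2 by positivity)
    have e : c / 2 * (2 / c * n₀) = n₀ := by field_simp
    rwa [e] at this
  linarith

/-- **Primes and almost primes just above almost all multiples of the powers of a fixed number.** -/
theorem result : ∃ c c₁ c₂ K : ℝ, 0 < c ∧ 0 < c₁ ∧ 0 < c₂ ∧ 0 < K ∧ ∀ B : ℝ, 1 < B →
    (∀ᵐ x : ℝ, 0 < x →
      LowerLogDensity c {n | c₁ * Real.log n / Real.log B ≤ primes (x * B ^ n) (x * B ^ n + p n) ∧
        (primes (x * B ^ n) (x * B ^ n + p n) : ℝ) ≤ c₂ * Real.log n / Real.log B} ∧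
      LowerLogDensity c {n | Regular c₁ c₂ K (x * B ^ n)} ∧
      ∀ k : ℕ, LogDensityOne {n | k ≤ almostPrimes (x * B ^ n) (x * B ^ n + p n)}) ∧
    ∀ h : ℕ → ℝ, Tendsto (fun n : ℕ => h n / n) atTop atTop → ∀ᵐ x : ℝ, 0 < x → ∀ k : ℕ,
      LogDensityOne {n | k ≤ almostPrimes (x * B ^ n) (x * B ^ n + h n)} := by
  classical
  obtain ⟨θ, hθ0, hθ1, hS⟩ := Pool.Agent.H932R4.MO.exists_short
  obtain ⟨d₁, d₂, K, c, hd₁, hd₂, hK, hc, hreg⟩ := Pool.Agent.W123.LR.regular θ hθ0 hθ1.le hS
  obtain ⟨Q, hQ⟩ : ∃ Q : Set ℕ, Q = {m : ℕ | Reg d₁ d₂ K m} := ⟨_, rfl⟩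
  have hQm : ∀ m, m ∈ Q ↔ Reg d₁ d₂ K m := fun m => by rw [hQ]; rfl
  -- density of the regular integers in windows
  obtain ⟨c', hc'⟩ : ∃ c', c' = min c 1 := ⟨_, rfl⟩
  have hc'0 : 0 < c' := by rw [hc']; exact lt_min hc one_pos
  have hc'1 : c' ≤ 1 := by rw [hc']; exact min_le_right _ _
  have hwin : ∀ᶠ X : ℕ in atTop, ∀ Y : ℕ, (X : ℝ) ^ θ ≤ Y → Y ≤ X →
      c' * Y ≤ ({m : ℕ | X < m ∧ m ≤ X + Y ∧ m ∈ Q}.ncard : ℝ) := by
    filter_upwards [hreg] with X hX Y h1 h2
    have h3 := hX Y h1 h2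
    have e1 : {m : ℕ | X < m ∧ m ≤ X + Y ∧ m ∈ Q} =
        ↑((Finset.Ioc X (X + Y)).filter (fun n => Reg d₁ d₂ K n)) := by
      ext m
      simp only [coe_filter, Finset.mem_Ioc, Set.mem_ofPred_eq, hQm]
      tauto
    rw [e1, Set.ncard_coe_finset]
    refine le_trans (mul_le_mul_of_nonneg_right (by rw [hc']; exact min_le_left _ _) (Nat.cast_nonneg Y)) h3
  obtain ⟨x₀, hx₀⟩ := regular_of_reg hd₁ hd₂ hK
  have hlimlog : Tendsto (fun N : ℕ => Real.log N) atTop atTop :=
    Real.tendsto_log_atTop.comp tendsto_natCast_atTop_atTop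
  have hpow : ∀ B : ℝ, 1 < B → ∀ᵐ x : ℝ, 0 < x →
      LowerLogDensity (c' / 4) {n | Regular (d₁ / 2) (2 * d₂) (K + 2) (x * B ^ n)} := by
    intro B hB
    have h1 := log_law_lower (Q := fun _ => Q) hB hθ0 hθ1 hc'0.le hc'1
      (lower_win hθ0 (fun n => (n : ℝ)) tendsto_natCast_atTop_atTop hwin)
    filter_upwards [h1] with x hx hx0
    obtain ⟨S, hSdef⟩ : ∃ S : Set ℕ, S = {n | ⌊x * B ^ n⌋₊ ∈ Q} := ⟨_, rfl⟩
    have h2 : LowerLogDensity (c' / 2) S := by
      unfold LowerLogDensity
      filter_upwards [hx hx0 (c' / 2) (by positivity)] with N hN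
      have e : c' - c' / 2 = c' / 2 := by ring
      rw [e] at hN
      refine hN.trans (le_of_eq ?_)
      congr 1
      ext n
      rw [Finset.mem_filter, Finset.mem_filter, hSdef]
      rfl
    have h3 := h2.transfer (S' := {n | Regular (d₁ / 2) (2 * d₂) (K + 2) (x * B ^ n)}) (by positivity) (by
      have hlim : Tendsto (fun n : ℕ => x * B ^ n) atTop atTop :=
        (tendsto_pow_atTop_atTop_of_one_lt hB).const_mul_atTop hx0
      filter_upwards [hlim.eventually_ge_atTop x₀] with n hn hnS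
      rw [hSdef] at hnS
      exact hx₀ _ hn ((hQm _).1 hnS))
    have e : c' / 2 / 2 = c' / 4 := by ring
    rwa [e] at h3
  have main : ∀ B : ℝ, 1 < B → ∀ h : ℕ → ℝ, Tendsto (fun n : ℕ => h n / n) atTop atTop → ∀ᵐ x : ℝ, 0 < x → ∀ k : ℕ,
      LogDensityOne {n | k ≤ almostPrimes (x * B ^ n) (x * B ^ n + h n)} := by
    intro B hB h hh
    have h1 : ∀ k j : ℕ, ∀ᵐ x : ℝ, 0 < x → ∀ ε : ℝ, 0 < ε → ∀ᶠ N : ℕ in atTop,
        ((1 - 1 / ((j : ℝ) + 1)) - ε) * Real.log N ≤
        ∑ n ∈ (Finset.Icc 1 N).filter (fun n => ⌊x * B ^ n⌋₊ ∈ {m : ℕ | Good (h n) k m}), 1 / (n : ℝ) := by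
      intro k j
      have hj : (0 : ℝ) < 1 / ((j : ℝ) + 1) := by positivity
      have hj1 : 1 / ((j : ℝ) + 1) ≤ 1 := by
        rw [div_le_one (by positivity)]
        linarith [Nat.cast_nonneg (α := ℝ) j]
      exact log_law_lower (Q := fun n => {m | Good (h n) k m}) hB (by norm_num : (0 : ℝ) < 4 / 5) (by norm_num)
        (by linarith) (by linarith) (lowerWin k (fun n => (n : ℝ)) h tendsto_natCast_atTop_atTop hh _ hj)
    have h2 := ae_all_iff.2 fun k => ae_all_iff.2 fun j => h1 k j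
    filter_upwards [h2] with x hx hx0 k
    obtain ⟨S, hSdef⟩ : ∃ S : Set ℕ, S = {n | k ≤ almostPrimes (x * B ^ n) (x * B ^ n + h n)} := ⟨_, rfl⟩
    rw [← hSdef]
    refine logDensityOne_of fun δ hδ => ?_
    obtain ⟨j, hj⟩ := exists_nat_one_div_lt (show (0 : ℝ) < δ / 2 by positivity)
    filter_upwards [hx k j hx0 (δ / 2) (by positivity), eventually_ge_atTop 1] with N h5 h6
    have hl0 : 0 ≤ Real.log N := Real.log_nonneg (by exact_mod_cast h6)
    refine le_trans (mul_le_mul_of_nonneg_right (by linarith) hl0) (h5.trans ?_)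
    refine Finset.sum_le_sum_of_subset_of_nonneg (fun n hn => ?_) (fun n _ _ => by positivity)
    rw [Finset.mem_filter] at hn ⊢
    refine ⟨hn.1, ?_⟩
    rw [hSdef]
    exact count_of_good (by positivity) hn.2
  obtain ⟨C, hC1, hpu⟩ := p_upper
  refine ⟨c' / 8, d₁ / 8, 4 * d₂ * C, K + 2, by positivity, by positivity, by positivity, by positivity,
    fun B hB => ⟨?_, main B hB⟩⟩
  filter_upwards [hpow B hB, main B hB (fun n => (p n : ℝ)) nth_tendsto] with x hx hx2 hx0
  have hlogB : 0 < Real.log B := Real.log_pos hB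
  have hlim : Tendsto (fun n : ℕ => x * B ^ n) atTop atTop :=
    (tendsto_pow_atTop_atTop_of_one_lt hB).const_mul_atTop hx0
  have e8 : c' / 4 / 2 = c' / 8 := by ring
  refine ⟨?_, ?_, hx2 hx0⟩
  · rw [← e8]
    refine (hx hx0).transfer (by positivity) ?_
    have h1 : ∀ᶠ n : ℕ in atTop, C * ((n : ℝ) * Real.log n) ≤ x * B ^ n / 2 := by
      have h2 : (fun n : ℕ => (n : ℝ) ^ 2) =o[atTop] fun n : ℕ => B ^ n :=
        isLittleO_pow_const_const_pow_of_one_lt 2 hB
      have h3 := h2.bound (show (0 : ℝ) < x / (2 * C) by positivity)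
      filter_upwards [h3, eventually_ge_atTop 1] with n hn hn1
      have hn1' : (1 : ℝ) ≤ n := by exact_mod_cast hn1
      rw [Real.norm_of_nonneg (by positivity), Real.norm_of_nonneg (by positivity)] at hn
      have h4 : Real.log n ≤ n := by
        have := Real.log_le_sub_one_of_pos (show (0 : ℝ) < n by linarith)
        linarith
      calc C * ((n : ℝ) * Real.log n) ≤ C * ((n : ℝ) * n) := by gcongr
        _ = C * (n : ℝ) ^ 2 := by ring
        _ ≤ C * (x / (2 * C) * B ^ n) := mul_le_mul_of_nonneg_left hn (by linarith)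
        _ = x * B ^ n / 2 := by
          have : C ≠ 0 := by linarith
          field_simp
    -- `log (x B ^ n)` is between `(n / 2) log B` and `2 n log B`
    have h2 : ∀ᶠ n : ℕ in atTop, |Real.log x| ≤ n * Real.log B / 4 := by
      have h3 : Tendsto (fun n : ℕ => (n : ℝ) * Real.log B / 4) atTop atTop :=
        (tendsto_natCast_atTop_atTop.atTop_mul_const hlogB).atTop_div_const (by norm_num)
      exact h3.eventually_ge_atTop _
    filter_upwards [h1, h2, hpu, p_lower, hlimlog.eventually_ge_atTop (4 * (K + 2) * Real.log B),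
      eventually_ge_atTop 2] with n g1 g1' g2 g3 g4 g5 hr
    have hn0 : (0 : ℝ) < n := by exact_mod_cast (show 0 < n by omega)
    have hln : 0 < Real.log n := Real.log_pos (by exact_mod_cast (show 1 < n by omega))
    have hlx : Real.log (x * B ^ n) = Real.log x + n * Real.log B := by
      rw [Real.log_mul hx0.ne' (by positivity), Real.log_pow]
    obtain ⟨a1, a2⟩ := abs_le.1 g1'
    obtain ⟨l, hl⟩ : ∃ l, l = Real.log (x * B ^ n) := ⟨_, rfl⟩
    rw [← hl] at hlx
    have hnB : 0 < (n : ℝ) * Real.log B := by positivity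
    have hl1 : 3 / 4 * (n * Real.log B) ≤ l := by rw [hlx]; linarith
    have hl2 : l ≤ 5 / 4 * (n * Real.log B) := by rw [hlx]; linarith
    have hl0 : 0 < l := by linarith
    have hp0 : (0 : ℝ) ≤ p n := Nat.cast_nonneg _
    have h2' : x * B ^ n + (p n : ℝ) - x * B ^ n = p n := by ring
    obtain ⟨h3, h4⟩ := hr (x * B ^ n) (x * B ^ n + p n) le_rfl (by linarith) (by
      rw [h2', ← hl]
      refine le_trans ?_ g3
      have h5 : (K + 2) * l ≤ (K + 2) * (5 / 4 * (n * Real.log B)) := mul_le_mul_of_nonneg_left hl2 (by linarith)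
      have h6 := mul_le_mul_of_nonneg_left g4 hn0.le
      nlinarith) (by
      rw [h2']
      exact g2.trans g1)
    rw [h2', ← hl] at h3 h4
    constructor
    · refine le_trans ?_ h3
      rw [div_le_div_iff₀ hlogB hl0]
      have h5 : d₁ / 8 * Real.log n * l ≤ d₁ / 8 * Real.log n * (5 / 4 * (n * Real.log B)) :=
        mul_le_mul_of_nonneg_left hl2 (by positivity)
      have h6 : d₁ / 2 * (n * Real.log n / 2) * Real.log B ≤ d₁ / 2 * (p n) * Real.log B :=
        mul_le_mul_of_nonneg_right (mul_le_mul_of_nonneg_left g3 (by linarith)) hlogB.le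
      have h7 : 0 < d₁ * Real.log n * (n * Real.log B) := by positivity
      nlinarith
    · refine h4.trans ?_
      rw [div_le_div_iff₀ hl0 hlogB]
      have h5 : 4 * d₂ * C * Real.log n * (3 / 4 * (n * Real.log B)) ≤ 4 * d₂ * C * Real.log n * l :=
        mul_le_mul_of_nonneg_left hl1 (by positivity)
      have h6 : 2 * d₂ * (p n) * Real.log B ≤ 2 * d₂ * (C * (n * Real.log n)) * Real.log B :=
        mul_le_mul_of_nonneg_right (mul_le_mul_of_nonneg_left g2 (by linarith)) hlogB.le
      have h7 : 0 < d₂ * C * (n * Real.log n) * Real.log B := by positivity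
      nlinarith
  · rw [← e8]
    refine (hx hx0).transfer (by positivity) ?_
    filter_upwards [hlim.eventually_gt_atTop 1] with n hn hr u v hu hv h1 h2
    obtain ⟨h3, h4⟩ := hr u v hu hv h1 h2
    have hlog : 0 < Real.log (x * B ^ n) := Real.log_pos hn
    have hvu : 0 ≤ v - u := by linarith
    constructor
    · refine le_trans ?_ h3
      rw [div_le_div_iff_of_pos_right hlog]
      nlinarith
    · refine h4.trans ?_
      rw [div_le_div_iff_of_pos_right hlog]
      have h5 : 2 * d₂ ≤ 4 * d₂ * C := by nlinarith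
      exact mul_le_mul_of_nonneg_right h5 hvu

end Pool.Agent.Results.MP_78b39f_nt.MultiplesOfPowers
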